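import Mathlib
import Pool.Agent.X101.SD.Fin1

/-!
# Furstenberg's orbit closure conjecture: numbers with independent digits

Let `O m x` be the closure of the orbit of `x` modulo one under multiplication by `m`.

(1) Let the base-`a` digits of `x - x₀` be independent, with arbitrary distributions, such that the
distribution of the sequence of digits has no atoms. Then almost surely, for every `b ≥ 2` such that
`a` divides no power of `b`, Lebesgue measure is a limit of the empirical measures of the orbit of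
`x` under multiplication by `b`; so `O b x = [0,1]`, and the inequality of the conjecture holds for
the pair `(c, b)`, for every `c`.

(2) A criterion for the same conclusions for arbitrary measures.

(3) Let `a, b ≥ 2` be coprime. For all real `x` and all `δ ≤ 1`, all but at most `C / δ ^ 8` of the
numbers `x + r`, where `r` is a fraction in `[0,1)` with a power of `a` as denominator, have a
`δ`-dense orbit modulo one under multiplication by `b`.

Proof. The sums `∑_{n < M} exp (2 π i b ^ n r)` are bounded if `r` is a fraction whose denominator is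
a product of primes of `a` and is divisible by a sufficiently high power of a prime `p` which divides
`a` and not `b`. The large sieve inequality bounds the number of such translates of one number with
large Weyl sums.
-/

set_option autoImplicit false

open MeasureTheory Filter Topology Set

namespace Pool.Agent.Results.MP_c9a594_an.IndependentDigits

/-- the closure of the orbit of `x` modulo one under multiplication by `m` -/
def O (m : ℕ) (x : ℝ) : Set ℝ := closure (range fun n : ℕ => Int.fract ((m : ℝ) ^ n * x))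

/-- the number in `[0,1]` with the digits `ω 0, ω 1, …` in base `a` -/
noncomputable def num (a : ℕ) (ω : ℕ → Fin a) : ℝ := ∑' k, ((ω k : ℕ) : ℝ) / (a : ℝ) ^ (k + 1)

/-- along some sequence of lengths all Weyl sums of the orbit of `x` under multiplication by `b` are
small, that is, Lebesgue measure is a limit of the empirical measures of the orbit modulo one -/
def QuasiNormal (b : ℕ) (x : ℝ) : Prop :=
  ∃ M : ℕ → ℕ, StrictMono M ∧ ∀ h : ℕ, 1 ≤ h →
    Tendsto (fun j => (∑ n ∈ Finset.range (M j),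
      Complex.exp (2 * Real.pi * Complex.I * (h * (b : ℝ) ^ n * x))) / (M j)) atTop (𝓝 0)

/-- the fractions in `[0,1)` with a power of `a` as denominator for which the orbit of `x + r` modulo
one under multiplication by `b` is not `δ`-dense in `[0,1]` -/
def Exceptional (a b : ℕ) (δ x : ℝ) : Set ℝ :=
  {r : ℝ | 0 ≤ r ∧ r < 1 ∧ (∃ (N : ℕ) (m : ℤ), r = m / (a : ℝ) ^ N) ∧
    ∃ y ∈ Icc (0 : ℝ) 1, ∀ n : ℕ, δ ≤ |Int.fract ((b : ℝ) ^ n * (x + r)) - y|}

theorem result :
    (∀ a : ℕ, 2 ≤ a → ∀ x₀ : ℝ, ∀ (ν : ℕ → Measure (Fin a)) [∀ k, IsProbabilityMeasure (ν k)],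
      (∀ ω, Measure.infinitePi ν {ω} = 0) →
        ∀ᵐ ω ∂(Measure.infinitePi ν), ∀ b : ℕ, 2 ≤ b → (∀ k : ℕ, ¬ a ∣ b ^ k) →
          QuasiNormal b (x₀ + num a ω) ∧ O b (x₀ + num a ω) = Icc 0 1 ∧
          ∀ c : ℕ, 1 ≤ dimH (O c (x₀ + num a ω)) + dimH (O b (x₀ + num a ω))) ∧
    (∀ a p : ℕ, 0 < a → p.Prime → ∀ μ : Measure ℝ,
      (∀ A : Set ℝ, MeasurableSet A → μ A ≠ 0 → ∀ N : ℕ, ∃ R : Finset ℝ, (R : Set ℝ) ⊆ A ∧
        N ≤ R.card ∧ ∀ r ∈ R, ∀ r' ∈ R, r ≠ r' → ∃ q : ℚ, r - r' = q ∧ p ^ N ∣ q.den ∧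
          ∀ l : ℕ, l.Prime → l ∣ q.den → l ∣ a) →
        ∀ᵐ x ∂μ, ∀ b : ℕ, 2 ≤ b → ¬ p ∣ b → QuasiNormal b x ∧ O b x = Icc 0 1) ∧
    (∀ a b : ℕ, 2 ≤ a → 2 ≤ b → a.Coprime b → ∃ C : ℝ, ∀ δ : ℝ, 0 < δ → δ ≤ 1 → ∀ x : ℝ,
      (Exceptional a b δ x).Finite ∧ ((Exceptional a b δ x).ncard : ℝ) ≤ C / δ ^ 8) := by
  refine ⟨fun a ha x₀ ν hν hat => ?_, fun a p ha hp μ hμ => ?_, fun a b ha hb hab =>
    Pool.Agent.X101.SD.part3 ha hb hab⟩
  · filter_upwards [Pool.Agent.X101.SD.part1 ha x₀ ν hat] with ω hω b hb hab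
    obtain ⟨h1, h2⟩ := hω b hb hab
    refine ⟨h1, h2, fun c => ?_⟩
    have h3 : dimH (O b (x₀ + num a ω)) = 1 := by
      have h4 : O b (x₀ + num a ω) = Icc 0 1 := h2
      rw [h4]
      exact Pool.Agent.X101.SD.dimH_Icc
    rw [h3]
    exact le_add_self
  · filter_upwards [Pool.Agent.X101.SD.criterion ha hp μ hμ] with x hx b hb hpb
    exact ⟨Pool.Agent.X101.SD.quasi (hx b hb hpb), Pool.Agent.X101.SD.orb_eq (hx b hb hpb)⟩

end Pool.Agent.Results.MP_c9a594_an.IndependentDigits
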