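import Pool.Agent.X188.FU4
import Pool.Agent.Y943.Fu.Orb

/-! Furstenberg's inequality for numbers that are approximated by fractions with `s`-smooth
denominators up to an error whose logarithm is sub-polynomial in the denominator. -/

set_option autoImplicit false

namespace Pool.Agent.Results.MP_c9a594_an.SmoothDenominators

/-- the closure of the orbit of `x` under `x ↦ b x mod 1` -/
def orb (b : ℕ) (x : ℝ) : Set ℝ :=
  closure (Set.range (fun n : ℕ => Int.fract ((b : ℝ) ^ n * x)))

theorem smooth {b s : ℕ} {x : ℝ} (hb : 2 ≤ b) (hbs : Nat.Coprime b s)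
    (hx : ∀ R : ℕ, ∃ (r h : ℕ) (c : ℤ), R ≤ r ∧ (∀ p : ℕ, p.Prime → p ∣ r → p ∣ s) ∧
      IsCoprime c (r : ℤ) ∧ |(b : ℝ) ^ h * x - c / r| ≤
        Real.exp (-Real.exp (3 * Real.log r / Real.log (Real.log r)))) :
    orb b x = Set.Icc 0 1 := by
  have hs : 1 ≤ s := by
    rcases Nat.eq_zero_or_pos s with h | h
    · rw [h, Nat.coprime_zero_right] at hbs; omega
    · exact h
  refine Pool.Agent.Y943.Fu.orb_eq_Icc fun ε hε y => ?_
  obtain ⟨R, hR⟩ := Pool.Agent.X188.FU.main_dense hb hs hbs (half_pos hε)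
  obtain ⟨r, h, c, hr, hrs, hc, hxc⟩ := hx R
  obtain ⟨n, z, h1, h2⟩ := hR r c hr hrs hc y
  refine ⟨n + h, z, ?_⟩
  have hbn : (0 : ℝ) ≤ (b : ℝ) ^ n := by positivity
  have h3 : (b : ℝ) ^ (n + h) * x - y - z =
      (b : ℝ) ^ n * ((b : ℝ) ^ h * x - c / r) + ((b : ℝ) ^ n * (c / r) - y - z) := by
    rw [pow_add]; ring
  have h4 : |(b : ℝ) ^ n * ((b : ℝ) ^ h * x - c / r)| ≤ ε / 2 := by
    rw [abs_mul, abs_of_nonneg hbn]
    exact (mul_le_mul_of_nonneg_left hxc hbn).trans h2
  rw [h3]
  refine (abs_add_le _ _).trans_lt ?_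
  linarith

theorem mono {u v : ℝ} (hu : Real.exp 1 ≤ u) (huv : u ≤ v) :
    3 * u / Real.log u ≤ 3 * v / Real.log v := by
  have h1 := Real.log_div_self_antitoneOn (Set.mem_Ici.2 hu) (Set.mem_Ici.2 (hu.trans huv)) huv
  simp only at h1
  have hu0 : 0 < u := (Real.exp_pos 1).trans_le hu
  have hv0 : 0 < v := hu0.trans_le huv
  have hlu : 0 < Real.log u := by
    have : 1 ≤ Real.log u := by rw [Real.le_log_iff_exp_le hu0]; exact hu
    linarith
  have hlv : 0 < Real.log v := hlu.trans_le (Real.log_le_log hu0 huv)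
  rw [div_le_div_iff₀ hv0 hu0] at h1
  rw [div_le_div_iff₀ hlu hlv]
  nlinarith

/-- **Theorem.** -/
theorem result :
    (∀ (b s : ℕ) (x : ℝ), 2 ≤ b → Nat.Coprime b s →
      (∀ R : ℕ, ∃ (r h : ℕ) (c : ℤ), R ≤ r ∧ (∀ p : ℕ, p.Prime → p ∣ r → p ∣ s) ∧
        IsCoprime c (r : ℤ) ∧ |(b : ℝ) ^ h * x - c / r| ≤
          Real.exp (-Real.exp (3 * Real.log r / Real.log (Real.log r)))) →
      orb b x = Set.Icc 0 1 ∧ ∀ a : ℕ, 1 ≤ dimH (orb a x) + dimH (orb b x)) ∧
    (∀ (a b : ℕ) (x : ℝ), 2 ≤ a → 2 ≤ b → Nat.Coprime a b → Irrational x →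
      (∀ N : ℕ, ∃ (n : ℕ) (c : ℤ), N ≤ n ∧ |(a : ℝ) ^ n * x - c| ≤
        Real.exp (-Real.exp (4 * Real.log a * n / Real.log n))) →
      orb b x = Set.Icc 0 1 ∧ 1 ≤ dimH (orb a x) + dimH (orb b x)) := by
  have hdim : ∀ (a b : ℕ) (x : ℝ), orb b x = Set.Icc 0 1 → 1 ≤ dimH (orb a x) + dimH (orb b x) := by
    intro a b x h
    have h1 : dimH (orb b x) = 1 := Pool.Agent.Y943.Fu.dimH_orb h
    rw [h1]
    exact le_add_self
  refine ⟨fun b s x hb hbs hx => ?_, fun a b x ha hb hab hirr hx => ?_⟩
  · have h1 := smooth hb hbs hx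
    exact ⟨h1, fun a => hdim a b x h1⟩
  · have h1 : orb b x = Set.Icc 0 1 := by
      refine smooth hb hab.symm fun R => ?_
      obtain ⟨δ, hδ, haway⟩ := Pool.Agent.Y943.Fu.away hirr (max R 16)
      -- a large `n`
      obtain ⟨M, hM⟩ := exists_nat_gt (1 / δ)
      obtain ⟨n, c, hn, hnc⟩ := hx (max M 8)
      have hn8 : 8 ≤ n := (le_max_right _ _).trans hn
      have hnM : M ≤ n := (le_max_left _ _).trans hn
      have har : (2 : ℝ) ≤ a := by exact_mod_cast ha
      have ha0 : (0 : ℝ) < a := by linarith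
      have hl2 : 0.6931471803 < Real.log 2 := Real.log_two_gt_d9
      have hla : Real.log 2 ≤ Real.log a := Real.log_le_log (by norm_num) har
      have hla0 : 0 < Real.log a := by linarith
      have hnr : (8 : ℝ) ≤ n := by exact_mod_cast hn8
      have hn0 : (0 : ℝ) < n := by linarith
      have hln : 2.07 ≤ Real.log n := by
        have h2 : Real.log 8 ≤ Real.log n := Real.log_le_log (by norm_num) hnr
        rw [show (8 : ℝ) = 2 ^ 3 by norm_num, Real.log_pow] at h2
        push_cast at h2
        linarith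
      have hln0 : 0 < Real.log n := by linarith
      set T : ℝ := 4 * Real.log a * n / Real.log n with hT
      have hT0 : 0 < T := by rw [hT]; positivity
      -- the gcd
      set g : ℕ := Int.gcd c ((a : ℤ) ^ n) with hg
      have hg0 : 0 < g := by
        rw [hg, Int.gcd_pos_iff]
        right
        positivity
      obtain ⟨c', hc'⟩ : (g : ℤ) ∣ c := Int.gcd_dvd_left _ _
      obtain ⟨r', hr'⟩ : (g : ℤ) ∣ (a : ℤ) ^ n := Int.gcd_dvd_right _ _
      have hr'0 : 0 < r' := by
        have h2 : 0 < (g : ℤ) * r' := by rw [← hr']; positivity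
        exact (mul_pos_iff_of_pos_left (by exact_mod_cast hg0)).1 h2
      obtain ⟨r, hr⟩ := Int.eq_ofNat_of_zero_le hr'0.le
      rw [hr] at hr' hr'0
      have hr0 : 0 < r := by exact_mod_cast hr'0
      have hcop : IsCoprime c' (r : ℤ) := by
        rw [Int.isCoprime_iff_gcd_eq_one]
        have h2 := Int.gcd_mul_left (g : ℤ) c' (r : ℤ)
        rw [← hc', ← hr', ← hg, Int.natAbs_natCast] at h2
        have h3 : g * 1 = g * Int.gcd c' (r : ℤ) := by rw [mul_one]; exact h2
        exact (Nat.eq_of_mul_eq_mul_left hg0 h3).symm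
      have hrdvd : r ∣ a ^ n := by
        have h2 : (r : ℤ) ∣ ((a ^ n : ℕ) : ℤ) := ⟨g, by push_cast; rw [hr']; ring⟩
        exact_mod_cast h2
      have hgr : (0 : ℝ) < g := by exact_mod_cast hg0
      have hrr : (0 : ℝ) < r := by exact_mod_cast hr0
      have hfrac : x - c' / r = ((a : ℝ) ^ n * x - c) / (a : ℝ) ^ n := by
        have h2 : (a : ℝ) ^ n = g * r := by exact_mod_cast hr'
        have h3 : (c : ℝ) = g * c' := by exact_mod_cast hc'
        rw [h2, h3]
        field_simp
      have hclose : |x - c' / r| ≤ Real.exp (-Real.exp T) := by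
        rw [hfrac, abs_div, abs_of_pos (show (0 : ℝ) < (a : ℝ) ^ n by positivity)]
        refine (div_le_self (abs_nonneg _) (one_le_pow₀ (by linarith))).trans hnc
      have hTn : Real.log n ≤ T := by
        rw [hT, le_div_iff₀ hln0]
        have h2 := Real.quadratic_le_exp_of_nonneg hln0.le
        rw [Real.exp_log hn0] at h2
        nlinarith
      have hδ2 : Real.exp (-Real.exp T) < δ := by
        have h2 : (n : ℝ) ≤ Real.exp T := by
          rw [← Real.exp_log hn0]
          exact Real.exp_le_exp.2 hTn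
        have h3 : (n : ℝ) < Real.exp (Real.exp T) := by
          linarith [Real.add_one_le_exp (Real.exp T)]
        have h4 : 1 / δ < n := hM.trans_le (by exact_mod_cast hnM)
        rw [Real.exp_neg, inv_lt_comm₀ (Real.exp_pos _) hδ]
        rw [one_div] at h4
        linarith
      have hrbig : max R 16 < r := by
        by_contra hcon
        push Not at hcon
        have h2 := haway r hr0 hcon c'
        linarith
      refine ⟨r, 0, c', ((le_max_left _ _).trans_lt hrbig).le, ?_, hcop, ?_⟩
      · intro p hp hpr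
        exact hp.dvd_of_dvd_pow (hpr.trans hrdvd)
      · rw [pow_zero, one_mul]
        refine hclose.trans (Real.exp_le_exp.2 (neg_le_neg (Real.exp_le_exp.2 ?_)))
        have hr16 : (16 : ℝ) ≤ r := by
          exact_mod_cast ((le_max_right R 16).trans_lt hrbig).le
        have hu : Real.exp 1 ≤ Real.log r := by
          have h2 : Real.log 16 ≤ Real.log r := Real.log_le_log (by norm_num) hr16
          rw [show (16 : ℝ) = 2 ^ 4 by norm_num, Real.log_pow] at h2
          push_cast at h2
          linarith [Real.exp_one_lt_d9]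
        have huv : Real.log r ≤ n * Real.log a := by
          rw [← Real.log_pow]
          apply Real.log_le_log hrr
          exact_mod_cast Nat.le_of_dvd (by positivity) hrdvd
        refine (mono hu huv).trans ?_
        have hv0 : 0 < (n : ℝ) * Real.log a := by positivity
        have hlogv : Real.log (n * Real.log a) = Real.log n + Real.log (Real.log a) :=
          Real.log_mul hn0.ne' hla0.ne'
        have h3 : -0.45 ≤ Real.log (Real.log a) := by
          have h4 := Real.one_sub_inv_le_log_of_pos hla0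
          have h5 : (Real.log a)⁻¹ ≤ 1.45 := by
            rw [inv_le_comm₀ hla0 (by norm_num)]
            norm_num
            linarith
          linarith
        have hlv : 0 < Real.log (n * Real.log a) := by rw [hlogv]; linarith
        rw [hT, div_le_div_iff₀ hlv hln0, hlogv]
        have h6 : 3 * Real.log n ≤ 4 * (Real.log n + Real.log (Real.log a)) := by linarith
        calc 3 * ((n : ℝ) * Real.log a) * Real.log n = (n * Real.log a) * (3 * Real.log n) := by ring
          _ ≤ (n * Real.log a) * (4 * (Real.log n + Real.log (Real.log a))) :=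
              mul_le_mul_of_nonneg_left h6 hv0.le
          _ = _ := by ring
    exact ⟨h1, hdim a b x h1⟩

end Pool.Agent.Results.MP_c9a594_an.SmoothDenominators
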