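import Mathlib
import Pool.Agent.X101.SD.Unif

/-!
# Furstenberg's orbit closure conjecture: sparse changes of the digits of a number

Let `O m x` be the closure of the orbit of `x` modulo one under multiplication by `m`, let `a ≥ 2` and
let `x₀` be any real number.

(1) Add independent random digits (in base `a`) to `x₀`, the digit at the place `k` being `1` with
probability at least `q k`, where `q` is a decreasing sequence with divergent sum, and `0` with
probability at least `c > 0`. Then almost surely the orbit of the resulting number `x` under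
multiplication by EVERY `b ≥ 2` multiplicatively independent of `a` is dense modulo one.

(2) If moreover the squares of the probabilities of nonzero digits have a finite sum, then almost
surely `dim O a x = dim O a x₀` (zero, for instance, if `x₀` is rational).

(3) Bounded changes of the digits at places whose gaps tend to infinity never change `dim O a`.

(4) Arbitrarily close to every real number `x₀` there is a number `y` with `dim O a y = dim O a x₀` and
`O b y = [0,1]` for all `b` multiplicatively independent of `a`.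

(5) For `b` multiplicatively independent of `a` and `δ > 0` there is one `L` such that every real
number, after a suitable change in any `L` consecutive places of its expansion in base `a`, has a
`δ`-dense orbit modulo one under multiplication by `b`.

The proofs are elementary: at the times `m` with `b ^ m` close to `τ a ^ s`, where `τ` has a dense orbit
under multiplication by `a`, adding `a ^ (-(s - i))` to the number shifts the point of the orbit by
about `τ a ^ i`.
-/

set_option autoImplicit false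

open MeasureTheory Filter Topology Set

namespace Pool.Agent.Results.MP_c9a594_an.SparseDigitChanges

/-- the closure of the orbit of `x` modulo one under multiplication by `m` -/
def O (m : ℕ) (x : ℝ) : Set ℝ := closure (range fun n : ℕ => Int.fract ((m : ℝ) ^ n * x))

/-- multiplicative independence -/
def Indep (a b : ℕ) : Prop := ∀ k l : ℕ, 0 < k → 0 < l → a ^ k ≠ b ^ l

/-- the number in `[0,1]` with the digits `ω 0, ω 1, …` in base `a` -/
noncomputable def num (a : ℕ) (ω : ℕ → Fin a) : ℝ := ∑' k, ((ω k : ℕ) : ℝ) / (a : ℝ) ^ (k + 1)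

/-- the gaps between the nonzero terms of the sequence tend to infinity -/
def Sparse (d : ℕ → ℤ) : Prop :=
  ∀ g : ℕ, ∃ K : ℕ, ∀ i j : ℕ, K ≤ i → i < j → d i ≠ 0 → d j ≠ 0 → i + g ≤ j

theorem dim_one {m : ℕ} {x : ℝ} (h : O m x = Icc 0 1) (c : ℕ) :
    1 ≤ dimH (O c x) + dimH (O m x) := by
  rw [h, Pool.Agent.X101.SD.dimH_Icc]
  exact le_add_self

theorem result (a : ℕ) (ha : 2 ≤ a) (x₀ : ℝ) :
    (∀ (ν : ℕ → Measure (Fin a)) [∀ k, IsProbabilityMeasure (ν k)] (c : ℝ) (q : ℕ → ℝ),
      0 < c → Antitone q → (∀ k, 0 ≤ q k) → ¬ Summable q →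
      (∀ k, ENNReal.ofReal c ≤ ν k {d | (d : ℕ) = 0}) →
      (∀ k, ENNReal.ofReal (q k) ≤ ν k {d | (d : ℕ) = 1}) →
        ∀ᵐ ω ∂(Measure.infinitePi ν), ∀ b : ℕ, 2 ≤ b → Indep a b →
          O b (x₀ + num a ω) = Icc 0 1 ∧
          ∀ c : ℕ, 1 ≤ dimH (O c (x₀ + num a ω)) + dimH (O b (x₀ + num a ω))) ∧
    (∀ (ν : ℕ → Measure (Fin a)) [∀ k, IsProbabilityMeasure (ν k)],
      ∑' k, (ν k {d | (d : ℕ) ≠ 0}) ^ 2 ≠ ⊤ →
        ∀ᵐ ω ∂(Measure.infinitePi ν), dimH (O a (x₀ + num a ω)) = dimH (O a x₀)) ∧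
    (∀ (d : ℕ → ℤ) (D : ℕ), (∀ i, |d i| ≤ D) → Sparse d →
      dimH (O a (x₀ + ∑' i, (d i : ℝ) / (a : ℝ) ^ (i + 1))) = dimH (O a x₀)) ∧
    (∀ ε : ℝ, 0 < ε → ∃ y : ℝ, |y - x₀| < ε ∧ dimH (O a y) = dimH (O a x₀) ∧
      ∀ b : ℕ, 2 ≤ b → Indep a b → O b y = Icc 0 1) ∧
    (∀ b : ℕ, 2 ≤ b → Indep a b → ∀ δ : ℝ, 0 < δ → ∃ L : ℕ, ∀ (x : ℝ) (n : ℕ), ∃ w : ℕ,
      (w : ℝ) / (a : ℝ) ^ (n + L) ≤ 1 / (a : ℝ) ^ n ∧
      ∀ y ∈ Icc (0 : ℝ) 1, ∃ m : ℕ,
        |Int.fract ((b : ℝ) ^ m * (x + w / (a : ℝ) ^ (n + L))) - y| < δ) := by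
  refine ⟨fun ν hν c q hc hq hq0 hdiv h0 h1 => ?_, fun ν hν hs =>
    Pool.Agent.X101.SD.ae_dim ha x₀ ν hs, fun d D hD hs =>
    Pool.Agent.X101.SD.dimH_sparse ha x₀ d D hD hs, fun ε hε =>
    Pool.Agent.X101.SD.near ha x₀ hε, fun b hb hab δ hδ =>
    Pool.Agent.X101.SD.uniform ha hb hab hδ⟩
  have e0 : {d : Fin a | (d : ℕ) = 0} = {⟨0, by omega⟩} := by
    ext d; simp [Fin.ext_iff]
  have e1 : {d : Fin a | (d : ℕ) = 1} = {⟨1, by omega⟩} := by
    ext d; simp [Fin.ext_iff]
  filter_upwards [Pool.Agent.X101.SD.ae_dense ha x₀ ν hc hq hq0 hdiv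
    (fun s => by rw [← e0]; exact h0 s) (fun s => by rw [← e1]; exact h1 s)] with ω hω b hb hab
  have h2 : O b (x₀ + num a ω) = Icc 0 1 := hω b hb hab
  exact ⟨h2, fun c => dim_one h2 c⟩

end Pool.Agent.Results.MP_c9a594_an.SparseDigitChanges
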